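import Pool.Agent.helper39.EY.ZJ1
import Pool.Agent.helper50.EY.Scale
import Pool.Agent.helper35.EY.FinZ
import Pool.Agent.helper5.EY.Asm
import Pool.Agent.helper74.EY.ZJ2

set_option autoImplicit false
set_option linter.unusedSectionVars false
set_option linter.unusedSimpArgs false

/-!
# EY-T1: the step `Z(0)` over a state with `φ_w = c w^a F + b G`

`t1_rz`: the form `φ(T; w, b, z) + θ u^(q-2) y² b` over the rescaled state realises
`q^κ + q^(κ+1) - E + (q + a + 2) q^(κ-1)`, `κ = card ρ + 1`.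
-/

namespace EY

open MvPolynomial Topology Filter

noncomputable section

variable {ρ : Type} [Fintype ρ] [DecidableEq ρ]

theorem RZ_eq_RZo (q : ℕ) (θ ω : ℂ) : RZ (Option ρ) q none ω θ 0 = RZm ρ q θ ω := by
  unfold RZ RZm
  rw [C_0, zero_mul, add_zero]

theorem eval_scT_vec {τ : Type} [Fintype τ] [DecidableEq τ] (t s w : ℂ) (x : τ → ℂ)
    (ψ : MvPolynomial (Option (Option τ)) ℂ) : eval (vec s w x) (scT t ψ) = eval (vec (t * s) w x) ψ := by
  rw [eval_scT]
  have h1 : (fun o : Option (Option τ) => o.elim (t * vec s w x none) fun o' => vec s w x (some o')) =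
      vec (t * s) w x := by
    funext o
    rcases o with _ | _ | o <;> rfl
  rw [h1]

/-- (hB) for all small `t` -/
theorem hB_scT {q E : ℕ} {φ : MvPolynomial (Option (Option (Option ρ))) ℂ}
    (h : St (Option ρ) q E φ)
    (hz : ∀ z : ρ → ℂ, (∀ r, eval (zpt 0 0 0 z) (pderiv (some (some (some r))) φ) = 0) → z = 0) :
    ∀ᶠ t in 𝓝[≠] (0 : ℂ), ∀ z : ρ → ℂ,
      (∀ r, eval (zpt (hq z) 0 0 z) (pderiv (some (some (some r))) (scT t φ)) = 0) → z = 0 := by
  have hφ : ∀ o : Option (Option ρ), wh (vw (Option ρ)) q (pderiv (some o) φ) := fun o =>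
    wh_pderiv h.wh (some o) q (by rcases o with _ | o <;> rfl)
  have h2 : ∀ᶠ t in 𝓝 (0 : ℂ), ∀ z : ρ → ℂ,
      (∀ r : ρ, eval (zpt (t * hq z) 0 0 z) (pderiv (some (some (some r))) φ) = 0) → z = 0 := by
    refine open_zero (fun (r : ρ) (t : ℂ) (z : ρ → ℂ) =>
      eval (zpt (t * hq z) 0 0 z) (pderiv (some (some (some r))) φ)) (fun _ => q) ?_ ?_ 0 ?_
    · intro r
      refine cont_pv (continuous_fst.mul (cont_hq continuous_snd)) continuous_const ?_ _
      apply continuous_pi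
      intro o
      rcases o with _ | r'
      · exact continuous_const
      · exact (continuous_apply r').comp continuous_snd
    · intro r t c z
      have h1 := aeval_wh (hφ (some (some r))) c (zpt (t * hq z) 0 0 z)
      simp only [aeval_eq_eval] at h1
      refine Eq.trans ?_ h1
      congr 2
      funext i
      rcases i with _ | _ | _ | i
      · simp only [zpt, vec, vw, Option.elim, hq, Pi.smul_apply, smul_eq_mul, mul_pow, ← Finset.mul_sum]
        ring
      · simp [zpt, vec, vw]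
      · simp [zpt, vec, vw]
      · simp [zpt, vec, vw]
    · intro z hz0
      apply hz z
      intro r
      have h3 := hz0 r
      rw [zero_mul] at h3
      exact h3
  filter_upwards [h2.filter_mono nhdsWithin_le_nhds] with t ht z hz0
  apply ht
  intro r
  have h3 := hz0 r
  rw [pderiv_scT_some] at h3
  unfold zpt at h3 ⊢
  rw [eval_scT_vec] at h3
  exact h3

/-- **T1** -/
theorem t1_rz' {q a e E : ℕ} (hq3 : 3 ≤ q) (he : 1 ≤ e)
    {φ : MvPolynomial (Option (Option (Option ρ))) ℂ} (h : St (Option ρ) q E φ)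
    (hE : E < q ^ (Fintype.card ρ + 1) + q ^ (Fintype.card ρ + 2)) {c : ℂ} (hc : c ≠ 0)
    (F G : MvPolynomial (Option (Option (Option ρ))) ℂ) (hF : wh (vw (Option ρ)) e F)
    (hw : pderiv (some none) φ = C c * (X (some none) ^ a * F) + X (some (some none)) * G)
    (hA : ∀ (s : ℂ) (z : ρ → ℂ), eval (zpt s 0 0 z) F = 0 →
      (∀ r, eval (zpt s 0 0 z) (pderiv (some (some (some r))) φ) = 0) → s = 0 ∧ z = 0)
    (hz : ∀ z : ρ → ℂ, (∀ r, eval (zpt 0 0 0 z) (pderiv (some (some (some r))) φ) = 0) → z = 0)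
    (hb : ∀ (s w : ℂ) (x : Option ρ → ℂ), (∀ o, eval (vec s w x) (pderiv (some o) φ) = 0) →
      x none = 0 → w = 0) :
    Rz q (Fintype.card ρ + 4) (q ^ (Fintype.card ρ + 1) + q ^ (Fintype.card ρ + 2) - E +
      (2 * a + e + 2) * q ^ Fintype.card ρ) := by
  have h3 : ∀ᶠ t in 𝓝[≠] (0 : ℂ), t ≠ 0 := eventually_mem_nhdsWithin
  obtain ⟨t, ⟨hM, hB⟩, ht⟩ := (((mst_scT h).and (hB_scT h hz)).and h3).exists
  have hw' : pderiv (some none) (scT t φ) = C c * (X (some none) ^ a * scT t F) +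
      X (some (some none)) * scT t G := by
    have e3 : scT t (C c : MvPolynomial (Option (Option (Option ρ))) ℂ) = C c := AlgHom.commutes _ c
    rw [pderiv_scT_some, hw, map_add, map_mul, map_mul, map_mul, map_pow, scT_some, scT_some, e3]
  have hA' : ∀ (s : ℂ) (z : ρ → ℂ), eval (zpt s 0 0 z) (scT t F) = 0 →
      (∀ r, eval (zpt s 0 0 z) (pderiv (some (some (some r))) (scT t φ)) = 0) → s = 0 ∧ z = 0 := by
    intro s z h1 h2
    unfold zpt at h1 h2
    rw [eval_scT_vec] at h1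
    obtain ⟨h4, h5⟩ := hA (t * s) z h1 (fun r => by
      have := h2 r
      rw [pderiv_scT_some, eval_scT_vec] at this
      exact this)
    exact ⟨(mul_eq_zero.mp h4).resolve_left ht, h5⟩
  have hb' : ∀ (s w : ℂ) (x : Option ρ → ℂ), (∀ o, eval (vec s w x) (pderiv (some o) (scT t φ)) = 0) →
      x none + 0 * w = 0 → w = 0 := by
    intro s w x h1 h2
    refine hb (t * s) w x (fun o => ?_) (by rw [← h2]; ring)
    have := h1 o
    rwa [pderiv_scT_some, eval_scT_vec] at this
  have hp : 0 < q ^ Fintype.card ρ := pow_pos (by omega) _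
  have hC := classC (by omega) hM
  rw [Fintype.card_option] at hC
  have e2 : q ^ (Fintype.card ρ + 1 + 1) = q ^ (Fintype.card ρ + 2) := rfl
  rw [e2] at hC
  have hC0 : mulAt (affIdeal (formC (scT t φ)) (gram (Option ρ)) (some none)) 0 ≠ 0 := by
    intro h0
    rw [h0] at hC
    omega
  have hmul : ∀ θ : ℂ, θ ≠ 0 →
      mulAt (affIdeal (formR (scT t φ) (RZ (Option ρ) q none 0 θ 0)) (gram (Option (Option ρ)))
        (some none)) 0 = q ^ (Fintype.card ρ + 1) + q ^ (Fintype.card ρ + 2) - E +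
      (2 * a + e + 2) * q ^ Fintype.card ρ := by
    intro θ hθ
    have hJ1 := z_J1 hq3 he hM.wh hθ hc (scT t F) (scT t G) (wh_scT t hF) hw' hA' (fun _ => hB)
    have hJ2 := z_J2 hq3 hM.wh hθ 0 hB
    rw [RZ_eq_RZo, z_mult (scT t φ) (by omega) hθ 0 hC0
      (by rw [hJ1]; exact (Nat.mul_pos (by omega) hp).ne')
      (by rw [hJ2]; exact (Nat.mul_pos two_pos hp).ne'), hJ1, hJ2]
    clear hJ1 hJ2
    have h6 : (2 * a + e + 2) * q ^ Fintype.card ρ =
        (2 * a + e) * q ^ Fintype.card ρ + 2 * q ^ Fintype.card ρ := by ring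
    rw [h6]
    generalize (2 * a + e) * q ^ Fintype.card ρ = x1 at *
    generalize q ^ Fintype.card ρ = x2 at *
    generalize q ^ (Fintype.card ρ + 1) = x3 at *
    generalize q ^ (Fintype.card ρ + 2) = x4 at *
    omega
  have hpos : q ^ (Fintype.card ρ + 1) + q ^ (Fintype.card ρ + 2) - E +
      (2 * a + e + 2) * q ^ Fintype.card ρ ≠ 0 := by omega
  have hbad := hM.finZ (by omega) none 0 0 hb' (fun θ hθ => by rw [hmul θ hθ]; exact hpos)
  obtain ⟨θ, hθ⟩ := (hbad.union (Set.finite_singleton (0 : ℂ))).infinite_compl.nonempty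
  rw [Set.mem_compl_iff, Set.mem_union, not_or, Set.mem_singleton_iff] at hθ
  obtain ⟨hθ1, hθ0⟩ := hθ
  have hθ2 : ProjFin {x | IsEig (formR (scT t φ) (RZ (Option ρ) q none 0 θ 0))
      (gram (Option (Option ρ))) x} := by
    by_contra hcon
    exact hθ1 hcon
  exact rz_of_form' (by simp only [Fintype.card_option]) hpos
    (formR (scT t φ) (RZ (Option ρ) q none 0 θ 0)) (formR_hom (by omega) hM.wh (wh_RZ (by omega) none 0 θ 0))
    hθ2 (hmul θ hθ0)

/-- **T1** (`a + e = q`) -/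
theorem t1_rz {q a e E : ℕ} (hq3 : 3 ≤ q) (he : 1 ≤ e) (hae : a + e = q)
    {φ : MvPolynomial (Option (Option (Option ρ))) ℂ} (h : St (Option ρ) q E φ)
    (hE : E < q ^ (Fintype.card ρ + 1) + q ^ (Fintype.card ρ + 2)) {c : ℂ} (hc : c ≠ 0)
    (F G : MvPolynomial (Option (Option (Option ρ))) ℂ) (hF : wh (vw (Option ρ)) e F)
    (hw : pderiv (some none) φ = C c * (X (some none) ^ a * F) + X (some (some none)) * G)
    (hA : ∀ (s : ℂ) (z : ρ → ℂ), eval (zpt s 0 0 z) F = 0 →
      (∀ r, eval (zpt s 0 0 z) (pderiv (some (some (some r))) φ) = 0) → s = 0 ∧ z = 0)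
    (hz : ∀ z : ρ → ℂ, (∀ r, eval (zpt 0 0 0 z) (pderiv (some (some (some r))) φ) = 0) → z = 0)
    (hb : ∀ (s w : ℂ) (x : Option ρ → ℂ), (∀ o, eval (vec s w x) (pderiv (some o) φ) = 0) →
      x none = 0 → w = 0) :
    Rz q (Fintype.card ρ + 4) (q ^ (Fintype.card ρ + 1) + q ^ (Fintype.card ρ + 2) - E +
      (q + a + 2) * q ^ Fintype.card ρ) := by
  have h1 := t1_rz' hq3 he h hE hc F G hF hw hA hz hb
  have h2 : 2 * a + e + 2 = q + a + 2 := by omega
  rwa [h2] at h1

end

end EY
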