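import Pool.Agent.helper51.EY.ZDef
import Pool.Agent.helper50.EY.ClassE

set_option autoImplicit false
set_option linter.unusedSectionVars false
set_option linter.unusedSimpArgs false

/-!
# EY-ZJ1: the sheet `h = 0` of the step `Z(0)` (`h = b`) for a state with
`φ_w = c w^(q-2) V + b G`, `V = σ + ...` weighted homogeneous of degree 2

On `b = 0` the sheet is `w^(q-2) V = 0`, `φ_b + θ y² = 0`, `φ_z = 0` in the chart; each of the `q - 1` factors
contributes `2 q^(card ρ)`.
-/

namespace EY

open MvPolynomial

noncomputable section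

variable {ρ : Type} [Fintype ρ] [DecidableEq ρ]

/-- the substitution of the initial forms (weights `w : 2`, `y, b, z : 1`): `σ ↦ w + (y² + b² + |z|²)/2`,
`w ↦ 0` -/
def pJ (ρ : Type) [Fintype ρ] [DecidableEq ρ] :
    Option (Option (Option ρ)) → MvPolynomial (Option (Option (Option ρ))) ℂ :=
  fun o => o.elim (qc (Option (Option ρ))) fun o' => o'.elim 0 fun i => X (some (some i))

theorem lead_chY {s : ℕ} {ψ : MvPolynomial (Option (Option (Option ρ))) ℂ}
    (hψ : wh (vw (Option ρ)) s ψ) :
    Lead (w21 (Option (Option ρ))) s (chY (Option ρ) ψ) (aeval (pJ ρ) ψ) := by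
  unfold chY
  refine Lead.aeval (v := vw (Option ρ)) ?_ (Lead.self hψ.wlo)
  intro o
  rcases o with _ | _ | i
  · exact Lead.self wh_qc21.wlo
  · exact Lead.of_lt (wh_X (w21 (Option (Option ρ))) none).wlo (by change 1 < 2; norm_num)
  · exact Lead.X (w21 (Option (Option ρ))) (some (some i))

theorem wh_pJ {s : ℕ} {ψ : MvPolynomial (Option (Option (Option ρ))) ℂ}
    (hψ : wh (vw (Option ρ)) s ψ) : wh (w21 (Option (Option ρ))) s (aeval (pJ ρ) ψ) := by
  refine wh_aeval (v := vw (Option ρ)) ?_ hψ
  intro o
  rcases o with _ | _ | i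
  · exact wh_qc21
  · exact wh_zero _ _
  · exact wh_X (w21 (Option (Option ρ))) (some (some i))

theorem eval_pJ (p : Option (Option (Option ρ)) → ℂ) (ψ : MvPolynomial (Option (Option (Option ρ))) ℂ) :
    eval p (aeval (pJ ρ) ψ) =
      eval (vec (p none + hq fun i => p (some i)) 0 fun i => p (some (some i))) ψ := by
  have h : (eval p).comp (aeval (pJ ρ) : MvPolynomial (Option (Option (Option ρ))) ℂ →ₐ[ℂ] _).toRingHom =
      eval (vec (p none + hq fun i => p (some i)) 0 fun i => p (some (some i))) := by
    apply MvPolynomial.ringHom_ext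
    · intro c
      simp
    · intro o
      rcases o with _ | _ | o
      · have := eval_qc p
        simp [pJ, vec, this]
      · simp [pJ, vec]
      · simp [pJ, vec]
  exact RingHom.congr_fun h ψ

/-- the system `b, g, φ_b + θ y², φ_z` -/
def jSys (φ : MvPolynomial (Option (Option (Option ρ))) ℂ) (θ : ℂ)
    (g : MvPolynomial (Option (Option (Option ρ))) ℂ) :
    Option (Option (Option ρ)) → MvPolynomial (Option (Option (Option ρ))) ℂ
  | none => X (some (some none))
  | some none => g
  | some (some none) => chY (Option ρ) (pderiv (some (some none)) φ) + C θ * X (some none) ^ 2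
  | some (some (some r)) => chY (Option ρ) (pderiv (some (some (some r))) φ)

theorem update_jSys (φ : MvPolynomial (Option (Option (Option ρ))) ℂ) (θ : ℂ)
    (g g' : MvPolynomial (Option (Option (Option ρ))) ℂ) :
    Function.update (jSys φ θ g) (some none) g' = jSys φ θ g' := by
  funext o
  rcases o with _ | _ | _ | r
  · rw [Function.update_of_ne (by simp)]; rfl
  · exact Function.update_self _ _ _
  · rw [Function.update_of_ne (by simp)]; rfl
  · rw [Function.update_of_ne (by simp)]; rfl

theorem span_zSys_jSys (φ : MvPolynomial (Option (Option (Option ρ))) ℂ) (θ c : ℂ) (hc : c ≠ 0)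
    (a : ℕ) (V G : MvPolynomial (Option (Option (Option ρ))) ℂ)
    (hw : pderiv (some none) φ = C c * (X (some none) ^ a * V) + X (some (some none)) * G) :
    Ideal.span (Set.range (zSys φ θ 0 (zh ρ 0))) =
      Ideal.span (Set.range (jSys φ θ (X none ^ a * chY (Option ρ) V))) := by
  have hzh : zh ρ 0 = X (some (some none)) := by
    unfold zh
    rw [C_0, zero_mul, add_zero]
  have hL : zL φ θ 0 = C c * (X none ^ a * chY (Option ρ) V) +
      X (some (some none)) * chY (Option ρ) G := by
    have e1 : chY (Option ρ) (X (some none)) = X none := by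
      unfold chY
      rw [aeval_X]
      rfl
    have e2 : chY (Option ρ) (X (some (some none))) = X (some (some none)) := by
      unfold chY
      rw [aeval_X]
      rfl
    have e3 : chY (Option ρ) (C c) = C c := AlgHom.commutes _ c
    unfold zL
    rw [mul_zero, C_0, zero_mul, add_zero, hw, map_add, map_mul, map_mul, map_mul, map_pow, e1, e2, e3]
  have hcc : (C c⁻¹ : MvPolynomial (Option (Option (Option ρ))) ℂ) * C c = 1 := by
    rw [← C_mul, inv_mul_cancel₀ hc, C_1]
  apply le_antisymm
  · rw [Ideal.span_le]
    have hb : (X (some (some none)) : MvPolynomial (Option (Option (Option ρ))) ℂ) ∈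
      Ideal.span (Set.range (jSys φ θ (X none ^ a * chY (Option ρ) V))) :=
      Ideal.subset_span ⟨none, rfl⟩
    have hL' : zL φ θ 0 ∈ Ideal.span (Set.range (jSys φ θ (X none ^ a * chY (Option ρ) V))) := by
      rw [hL]
      exact Ideal.add_mem _ (Ideal.mul_mem_left _ _ (Ideal.subset_span ⟨some none, rfl⟩))
        (Ideal.mul_mem_right _ _ hb)
    rintro _ ⟨o, rfl⟩
    rcases o with _ | _ | _ | r
    · change zh ρ 0 ∈ _
      rw [hzh]; exact hb
    · change C (2 * θ) * zh ρ 0 - zL φ θ 0 ∈ _
      rw [hzh]
      exact Ideal.sub_mem _ (Ideal.mul_mem_left _ _ hb) hL'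
    · change chY (Option ρ) (pderiv (some (some none)) φ) + C θ * X (some none) ^ 2 -
        X (some (some none)) * zL φ θ 0 ∈ _
      exact Ideal.sub_mem _ (Ideal.subset_span ⟨some (some none), rfl⟩) (Ideal.mul_mem_right _ _ hb)
    · change chY (Option ρ) (pderiv (some (some (some r))) φ) - X (some (some (some r))) * zL φ θ 0 ∈ _
      exact Ideal.sub_mem _ (Ideal.subset_span ⟨some (some (some r)), rfl⟩)
        (Ideal.mul_mem_left _ _ hL')
  · rw [Ideal.span_le]
    have hb : (X (some (some none)) : MvPolynomial (Option (Option (Option ρ))) ℂ) ∈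
      Ideal.span (Set.range (zSys φ θ 0 (zh ρ 0))) := by
      rw [← hzh]
      exact Ideal.subset_span ⟨none, rfl⟩
    have hL' : zL φ θ 0 ∈ Ideal.span (Set.range (zSys φ θ 0 (zh ρ 0))) := by
      have h1 : zL φ θ 0 = C (2 * θ) * zh ρ 0 - zSys φ θ 0 (zh ρ 0) (some none) := by
        change _ = C (2 * θ) * zh ρ 0 - (C (2 * θ) * zh ρ 0 - zL φ θ 0)
        rw [sub_sub_cancel]
      rw [h1]
      exact Ideal.sub_mem _ (Ideal.mul_mem_left _ _ (Ideal.subset_span ⟨none, rfl⟩))
        (Ideal.subset_span ⟨some none, rfl⟩)
    rintro _ ⟨o, rfl⟩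
    rcases o with _ | _ | _ | r
    · exact hb
    · change X none ^ a * chY (Option ρ) V ∈ _
      have h1 : X none ^ a * chY (Option ρ) V = C c⁻¹ * (zL φ θ 0 -
          X (some (some none)) * chY (Option ρ) G) := by
        rw [hL, add_sub_cancel_right, ← mul_assoc, hcc, one_mul]
      rw [h1]
      exact Ideal.mul_mem_left _ _ (Ideal.sub_mem _ hL' (Ideal.mul_mem_right _ _ hb))
    · have h1 : jSys φ θ (X none ^ a * chY (Option ρ) V) (some (some none)) =
          zSys φ θ 0 (zh ρ 0) (some (some none)) + X (some (some none)) * zL φ θ 0 := by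
        change chY (Option ρ) (pderiv (some (some none)) φ) + C θ * X (some none) ^ 2 =
          chY (Option ρ) (pderiv (some (some none)) φ) + C θ * X (some none) ^ 2 -
            X (some (some none)) * zL φ θ 0 + X (some (some none)) * zL φ θ 0
        rw [sub_add_cancel]
      rw [h1]
      exact Ideal.add_mem _ (Ideal.subset_span ⟨some (some none), rfl⟩) (Ideal.mul_mem_right _ _ hb)
    · have h1 : jSys φ θ (X none ^ a * chY (Option ρ) V) (some (some (some r))) =
          zSys φ θ 0 (zh ρ 0) (some (some (some r))) + X (some (some (some r))) * zL φ θ 0 := by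
        change chY (Option ρ) (pderiv (some (some (some r))) φ) =
          chY (Option ρ) (pderiv (some (some (some r))) φ) -
            X (some (some (some r))) * zL φ θ 0 + X (some (some (some r))) * zL φ θ 0
        rw [sub_add_cancel]
      rw [h1]
      exact Ideal.add_mem _ (Ideal.subset_span ⟨some (some (some r)), rfl⟩)
        (Ideal.mul_mem_left _ _ hL')

/-- the degrees of the initial forms -/
def dJ (ρ : Type) (q e : ℕ) : Option (Option (Option ρ)) → ℕ
  | none => 1
  | some none => e
  | some (some none) => 2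
  | some (some (some _)) => q

theorem prod_dJ (q e : ℕ) : ∏ o, dJ ρ q e o = 2 * (e * q ^ Fintype.card ρ) := by
  rw [Fintype.prod_option, Fintype.prod_option, Fintype.prod_option]
  have : ∏ i : ρ, dJ ρ q e (some (some (some i))) = q ^ Fintype.card ρ := by
    simp [dJ]
  rw [this]
  change 1 * (e * (2 * q ^ Fintype.card ρ)) = _
  ring

theorem prod_w21 : ∏ o, w21 (Option (Option ρ)) o = 2 := by
  rw [Fintype.prod_option]
  simp [w21]

/-- one factor: `g` with initial form `g0` of weight `e` -/
theorem jSys_factor {q e : ℕ} (hq3 : 3 ≤ q) (he : 1 ≤ e) {φ : MvPolynomial (Option (Option (Option ρ))) ℂ}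
    (hφ : wh (vw (Option ρ)) (q + 1) φ) {θ : ℂ} (hθ : θ ≠ 0)
    (g g0 : MvPolynomial (Option (Option (Option ρ))) ℂ) (hg0 : wh (w21 (Option (Option ρ))) e g0)
    (hg : Lead (w21 (Option (Option ρ))) e g g0)
    (h0 : ∀ (w : ℂ) (z : ρ → ℂ), eval (vec w 0 fun o : Option ρ => o.elim 0 z) g0 = 0 →
      (∀ r, eval (zpt (w + hq z) 0 0 z) (pderiv (some (some (some r))) φ) = 0) → w = 0 ∧ z = 0) :
    mulAt (Ideal.span (Set.range (jSys φ θ g))) 0 = e * q ^ Fintype.card ρ := by
  have hφ' : ∀ o : Option (Option ρ), wh (vw (Option ρ)) q (pderiv (some o) φ) := fun o =>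
    wh_pderiv hφ (some o) q (by rcases o with _ | o <;> rfl)
  let G0 : Option (Option (Option ρ)) → MvPolynomial (Option (Option (Option ρ))) ℂ := fun o =>
    match o with
    | none => X (some (some none))
    | some none => g0
    | some (some none) => C θ * X (some none) ^ 2
    | some (some (some r)) => aeval (pJ ρ) (pderiv (some (some (some r))) φ)
  have h1 := wBez (w := w21 (Option (Option ρ)))
    (fun o => by rcases o with _ | o <;> [exact two_pos; exact one_pos])
    (f := jSys φ θ g) (g := G0) (d := dJ ρ q e)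
    (fun o => by
      rcases o with _ | _ | _ | r
      · exact one_pos
      · exact he
      · exact two_pos
      · change 0 < q; omega)
    (fun o => by
      rcases o with _ | _ | _ | r
      · exact wh_X (w21 (Option (Option ρ))) (some (some none))
      · exact hg0
      · exact wh_C_mul _ (wh_pow (wh_X (w21 (Option (Option ρ))) (some none)) 2)
      · exact wh_pJ (hφ' _))
    (fun x hx => by
      have hb : x (some (some none)) = 0 := by
        have := hx none
        simpa [G0] using this
      have hy : x (some none) = 0 := by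
        have := hx (some (some none))
        simpa [G0, hθ] using this
      have hxe : x = vec (x none) 0 fun o : Option ρ => o.elim 0 fun r => x (some (some (some r))) := by
        funext o
        rcases o with _ | _ | _ | r
        · rfl
        · exact hy
        · exact hb
        · rfl
      have h2 := h0 (x none) (fun r => x (some (some (some r)))) (by
        rw [← hxe]; exact hx (some none)) (fun r => by
        have h3 : eval x (aeval (pJ ρ) (pderiv (some (some (some r))) φ)) = 0 := hx (some (some (some r)))
        rw [eval_pJ] at h3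
        have h4 : (vec (x none + hq fun i => x (some i)) 0 fun i => x (some (some i))) =
            zpt (x none + hq fun r => x (some (some (some r)))) 0 0 fun r => x (some (some (some r))) := by
          have h5 : (hq fun i : Option (Option ρ) => x (some i)) =
              hq fun r => x (some (some (some r))) := by
            unfold hq
            rw [Fintype.sum_option, Fintype.sum_option]
            simp only [hb, hy]
            simp
          rw [h5]
          unfold zpt
          congr 1
          funext o
          rcases o with _ | r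
          · exact hb
          · rfl
        rw [← h4]
        exact h3)
      rw [hxe, h2.1, h2.2]
      funext o
      rcases o with _ | _ | _ | r <;> rfl)
    (fun o => by
      rcases o with _ | _ | _ | r
      · exact Lead.X (w21 (Option (Option ρ))) (some (some none))
      · exact hg
      · change Lead _ 2 (chY (Option ρ) (pderiv (some (some none)) φ) + C θ * X (some none) ^ 2)
          (C θ * X (some none) ^ 2)
        rw [add_comm]
        refine Lead.add_hi (Lead.C_mul _ (Lead.pow (Lead.X (w21 (Option (Option ρ))) (some none)) 2)) ?_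
        exact wlo_mono (by omega) (lead_chY (hφ' _)).lof
      · exact lead_chY (hφ' _))
  rw [prod_dJ, prod_w21] at h1
  omega

/-- **the sheet `h = 0`**: `φ_w = c w^a F + b G`, `F` weighted homogeneous of weight `e`. (For a state, `a + e = q`.)
E.g. `F = ∏ (σ - v_i w²)`, for which (hA) says that `φ_z(0;0,0,z)` has only the zero `0`. -/
theorem z_J1 {q a e : ℕ} (hq3 : 3 ≤ q) (he : 1 ≤ e)
    {φ : MvPolynomial (Option (Option (Option ρ))) ℂ}
    (hφ : wh (vw (Option ρ)) (q + 1) φ) {θ c : ℂ} (hθ : θ ≠ 0) (hc : c ≠ 0)
    (F G : MvPolynomial (Option (Option (Option ρ))) ℂ) (hF : wh (vw (Option ρ)) e F)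
    (hw : pderiv (some none) φ = C c * (X (some none) ^ a * F) + X (some (some none)) * G)
    (hA : ∀ (s : ℂ) (z : ρ → ℂ), eval (zpt s 0 0 z) F = 0 →
      (∀ r, eval (zpt s 0 0 z) (pderiv (some (some (some r))) φ) = 0) → s = 0 ∧ z = 0)
    (hB : a ≠ 0 → ∀ z : ρ → ℂ,
      (∀ r, eval (zpt (hq z) 0 0 z) (pderiv (some (some (some r))) φ) = 0) → z = 0) :
    mulAt (Ideal.span (Set.range (zSys φ θ 0 (zh ρ 0)))) 0 = (2 * a + e) * q ^ Fintype.card ρ := by
  have hBm : mulAt (Ideal.span (Set.range (jSys φ θ (chY (Option ρ) F)))) 0 =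
      e * q ^ Fintype.card ρ := by
    refine jSys_factor hq3 he hφ hθ (chY (Option ρ) F) (aeval (pJ ρ) F) (wh_pJ hF)
      (lead_chY hF) fun w z h1 h2 => ?_
    rw [eval_pJ] at h1
    have h3 : (vec ((vec w 0 fun o : Option ρ => o.elim 0 z) none +
        hq fun i => (vec w 0 fun o : Option ρ => o.elim 0 z) (some i)) 0
        fun i => (vec w 0 fun o : Option ρ => o.elim 0 z) (some (some i))) = zpt (w + hq z) 0 0 z := by
      have h4 : (hq fun i : Option (Option ρ) => (vec w 0 fun o : Option ρ => o.elim 0 z) (some i)) =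
          hq z := by
        unfold hq
        rw [Fintype.sum_option, Fintype.sum_option]
        simp [vec]
      rw [h4]
      rfl
    rw [h3] at h1
    obtain ⟨h5, h6⟩ := hA (w + hq z) z h1 h2
    subst h6
    have h7 : hq (0 : ρ → ℂ) = 0 := by simp [hq]
    rw [h7, add_zero] at h5
    exact ⟨h5, rfl⟩
  have hp : 0 < q ^ Fintype.card ρ := pow_pos (by omega) _
  have hind : ∀ k : ℕ, k ≤ a →
      mulAt (Ideal.span (Set.range (jSys φ θ (X none ^ k * chY (Option ρ) F)))) 0 =
      (2 * k + e) * q ^ Fintype.card ρ := by
    intro k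
    induction k with
    | zero => intro _; rw [pow_zero, one_mul, hBm, mul_zero, zero_add]
    | succ k ih =>
      intro hk
      have hAm : mulAt (Ideal.span (Set.range (jSys φ θ (X none)))) 0 = 2 * q ^ Fintype.card ρ := by
        refine jSys_factor hq3 one_le_two hφ hθ (X none) (X none)
          (wh_X (w21 (Option (Option ρ))) none)
          (Lead.X (w21 (Option (Option ρ))) none) fun w z h1 h2 => ?_
        have hw0 : w = 0 := by simpa [vec] using h1
        subst hw0
        refine ⟨rfl, hB (by omega) z fun r => ?_⟩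
        have := h2 r
        rwa [zero_add] at this
      have ih' := ih (by omega)
      have h1 := cmAdd (jSys φ θ 0) (some none) (X none) (X none ^ k * chY (Option ρ) F)
        (by rw [update_jSys, hAm]; exact (Nat.mul_pos two_pos hp).ne')
        (by rw [update_jSys, ih']; exact (Nat.mul_pos (by omega) hp).ne')
      rw [update_jSys, update_jSys, update_jSys, hAm, ih'] at h1
      rw [pow_succ', mul_assoc, h1]
      ring
  rw [span_zSys_jSys φ θ c hc a F G hw, hind a le_rfl]

/-- the same for `φ_w = c w^a + b G`, `1 ≤ a` -/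
theorem z_J1_pow {q a : ℕ} (hq3 : 3 ≤ q) {φ : MvPolynomial (Option (Option (Option ρ))) ℂ}
    (hφ : wh (vw (Option ρ)) (q + 1) φ) {θ c : ℂ} (hθ : θ ≠ 0) (hc : c ≠ 0) (ha : 1 ≤ a)
    (G : MvPolynomial (Option (Option (Option ρ))) ℂ)
    (hw : pderiv (some none) φ = C c * X (some none) ^ a + X (some (some none)) * G)
    (hB : ∀ z : ρ → ℂ,
      (∀ r, eval (zpt (hq z) 0 0 z) (pderiv (some (some (some r))) φ) = 0) → z = 0) :
    mulAt (Ideal.span (Set.range (zSys φ θ 0 (zh ρ 0)))) 0 = 2 * a * q ^ Fintype.card ρ := by
  have hp : 0 < q ^ Fintype.card ρ := pow_pos (by omega) _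
  have hAm : mulAt (Ideal.span (Set.range (jSys φ θ (X none)))) 0 = 2 * q ^ Fintype.card ρ := by
    refine jSys_factor hq3 one_le_two hφ hθ (X none) (X none)
      (wh_X (w21 (Option (Option ρ))) none)
      (Lead.X (w21 (Option (Option ρ))) none) fun w z h1 h2 => ?_
    have hw0 : w = 0 := by simpa [vec] using h1
    subst hw0
    refine ⟨rfl, hB z fun r => ?_⟩
    have := h2 r
    rwa [zero_add] at this
  have hind : ∀ k : ℕ, mulAt (Ideal.span (Set.range (jSys φ θ (X none ^ (k + 1))))) 0 =
      2 * (k + 1) * q ^ Fintype.card ρ := by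
    intro k
    induction k with
    | zero => rw [zero_add, pow_one, hAm, mul_one]
    | succ k ih =>
      have h1 := cmAdd (jSys φ θ 0) (some none) (X none) (X none ^ (k + 1))
        (by rw [update_jSys, hAm]; exact (Nat.mul_pos two_pos hp).ne')
        (by rw [update_jSys, ih]; exact (Nat.mul_pos (by omega) hp).ne')
      rw [update_jSys, update_jSys, update_jSys, hAm, ih] at h1
      rw [pow_succ', h1]
      ring
  obtain ⟨k, rfl⟩ : ∃ k, a = k + 1 := ⟨a - 1, by omega⟩
  have h1 := span_zSys_jSys φ θ c hc (k + 1) 1 G (by rw [mul_one]; exact hw)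
  rw [map_one, mul_one] at h1
  rw [h1, hind]

end

end EY
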